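import Pool.Agent.helper74.FD.SpecG

/-!
# Row fd:YPO (MP_07c750_an): porosity of the unstable set
-/

set_option autoImplicit false

open scoped MatrixGroups ContDiff Topology UpperHalfPlane ComplexConjugate
open UpperHalfPlane MeasureTheory Filter Set

namespace Pool.Agent.FD

open Pool.Agent.RS Pool.Agent.MS
open Pool.Agent.EN (XG MG mkX mkM fl pr)

theorem YPO_proof (hGLC : RS.GLC_stmt) : YPO_stmt := by
  obtain ⟨-, -, -, -, -, -, -, -, -, -, haM, -, hlM, -, -, -, -, -, hla, -⟩ := hGLC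
  intro Γ θ Ψ T0 c n g hθ hT0 hc hc4 hDEN hT0n hΨ a b hab hab1
  have hd : 0 < b - a := lt_of_lt_of_le (Real.exp_pos _) hab
  set d : ℝ := b - a with hdd
  set s : ℝ := -Real.log d with hs
  have hexp : Real.exp (-s) = d := by rw [hs, neg_neg, Real.exp_log hd]
  have hs0 : 0 ≤ s := by
    have := Real.log_nonpos hd.le hab1
    linarith
  have hsn : s ≤ n - T0 := by
    have h1 := (Real.le_log_iff_exp_le hd).2 hab
    linarith
  obtain ⟨t, v0, ht0, htT, hv0, hv1, hv⟩ := hDEN (g * lM a * aM s)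
  have key : ∀ v : ℝ, g * lM a * aM s * lM v * aM t = g * lM (a + d * v) * aM (s + t) := by
    intro v
    have h1 : aM s * lM v = lM (d * v) * aM s := by
      rw [hla (d * v) s, ← hexp, ← mul_assoc, ← Real.exp_add, add_neg_cancel, Real.exp_zero, one_mul]
    rw [mul_assoc (g * lM a) (aM s) (lM v), h1, hlM a (d * v), haM s t]
    simp only [mul_assoc]
  refine ⟨a + d * (v0 - c), by nlinarith, by nlinarith, fun x hx hxc => ?_⟩
  obtain ⟨-, hxΨ⟩ := hx
  obtain ⟨hx1, hx2⟩ := hxc
  have h2 : a + d * ((x - a) / d) = x := by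
    rw [mul_div_cancel₀ _ hd.ne']
    ring
  have h3 : |(x - a) / d - v0| ≤ c := by
    have h4 : v0 - c ≤ (x - a) / d := by
      rw [le_div_iff₀ hd]
      nlinarith
    have h5 : (x - a) / d ≤ v0 := by
      rw [div_le_iff₀ hd]
      nlinarith
    rw [abs_le]
    constructor <;> linarith
  have h6 := hv ((x - a) / d) h3
  rw [key, h2] at h6
  have h7 := hΨ (g * lM x) hxΨ (s + t) ⟨by linarith, by linarith⟩
  linarith

end Pool.Agent.FD
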